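import Pool.Agent.H604.LD.Wsum

/-!
# The sum over all fibres, for an arbitrary summand (helper328)
-/

set_option autoImplicit false

namespace Pool.Agent.H604.LD

open Polynomial
open scoped Classical
open Pool.Agent.H694.Typ (Mn mem_Mn card_Mn Irn mem_Irn q_ge)

/-- The fibre bound for the function `p`, at the degree `n`. -/
def FibG (K : Type) [Field K] [Fintype K] (η c : ℝ) (n : ℕ) (p : K[X] → ℝ) : Prop :=
  ∀ (c₁ : K) (m A₀ e h P : K[X]) (u a V : ℕ),
      m.Monic → Irreducible m → m.natDegree = u → A₀.Monic → A₀.natDegree = n → ¬ m ∣ A₀ →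
      c₁ ≠ 0 → e.Monic → h.Monic → IsCoprime e h → Squarefree h → IsCoprime m (e * h) →
      (C c₁ * (e * h)) ^ 2 = derivative (m * A₀) →
      P.Monic → Irreducible P → P.natDegree = a → P ∣ h →
      (e.natDegree : ℝ) ≤ η * n →
      (u : ℝ) + 2 * V + 40 * η * n ≤ n → 2 * V + 5 * u + 3 * n ≤ 8 * (e * h).natDegree →
      ((e * h).natDegree : ℝ) + 40 * η * n ≤ V + a → (a : ℝ) + 40 * η * n ≤ V →
      (V : ℝ) + 10 * η * n ≤ 2 * ((e * h).natDegree - a) →
      |∑ᶠ v ∈ {v : K[X] | v.degree < (V : WithBot ℕ)}, p (A₀ + m * v ^ 2)| ≤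
        (Fintype.card K : ℝ) ^ ((V : ℝ) - c * n)

namespace WsumL

section per
variable {K : Type} [Field K] [Fintype K] [CharP K 2]

/-- the good fibres -/
lemma goodG {t n : ℕ} (ht : 1 ≤ t) (h1 : 1000 * t ≤ n) (h2 : n < 1000 * (t + 1)) {c : ℝ}
    {p : K[X] → ℝ} (hf : FibG K (1 / 1000) c n p) {S : Finset K[X]}
    (hS : ∀ s : K[X], s ≠ 0 → s.natDegree ≤ (n + 40 * t) / 2 →
      (∃ k : K[X], k.Monic ∧ t / 3 < k.natDegree ∧ k ^ 2 ∣ s) → s ∈ S)
    {m : K[X]} (hm : m.Monic) (hmi : Irreducible m)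
    (hmu : m.natDegree = 40 * t) {A : K[X]} (hA : A ∈ Mn K n) (hb : ¬ Bad t n S m A) {P : K[X]}
    (hP : P ∈ Irr K (200 * t)) (hPd : P ∣ derivative (m * A)) :
    |∑ v ∈ Dl K ((n - 120 * t) / 2), p (A + m * v ^ 2)| ≤
      (Fintype.card K : ℝ) ^ ((((n - 120 * t) / 2 : ℕ) : ℝ) - c * n) := by
  unfold Irr at hP
  rw [Finset.mem_filter, mem_Mn] at hP
  obtain ⟨⟨hPm, hPa⟩, hPi⟩ := hP
  rw [mem_Mn] at hA
  obtain ⟨hAm, hAn⟩ := hA
  unfold Bad Rt at hb
  push Not at hb
  obtain ⟨hmA, hb2, hb3⟩ := hb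
  obtain ⟨s, hs⟩ := exists_root (m * A)
  have hsL : s ∉ Dl K ((n + 40 * t) / 2 - 5 * t + 1) := fun h => hb2 s h hs
  have hsS : s ∉ S := fun h => hb3 s h hs
  rw [mem_Dl] at hsL
  have hs0 : s ≠ 0 := by
    rintro rfl
    apply hsL
    rw [degree_zero]
    exact WithBot.bot_lt_coe _
  rw [degree_eq_natDegree hs0, Nat.cast_lt, not_lt] at hsL
  have hsd : 2 * s.natDegree < n + 40 * t := by
    have h3 : (m * A).natDegree = 40 * t + n := by
      rw [hm.natDegree_mul hAm, hmu, hAn]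
    have h4 := natDegree_derivative_lt (p := m * A) (by omega)
    rw [← hs, natDegree_pow, h3] at h4
    omega
  obtain ⟨c₁, e, h, k, hc1, he, hh, hk, hseh, hcop, hsq, hke, hdeg⟩ := dec s hs0
  have hkt : k.natDegree ≤ t / 3 := by
    by_contra hcon
    apply hsS
    apply hS s hs0 (by omega)
    refine ⟨k, hk, by omega, hke.trans ⟨C c₁ * h, ?_⟩⟩
    rw [hseh]
    ring
  have het : e.natDegree ≤ t := by omega
  have hehd : (e * h).natDegree = s.natDegree := by
    rw [hseh, natDegree_C_mul hc1]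
  have hPh : P ∣ h := by
    have h3 : P ∣ s := hPi.prime.dvd_of_dvd_pow (n := 2) (by rw [hs]; exact hPd)
    rw [hseh] at h3
    rcases hPi.prime.dvd_or_dvd h3 with h4 | h4
    · exfalso
      have h5 := natDegree_le_of_dvd h4 (by simpa using hc1)
      rw [natDegree_C] at h5
      omega
    · rcases hPi.prime.dvd_or_dvd h4 with h5 | h5
      · exfalso
        have h6 := natDegree_le_of_dvd h5 he.ne_zero
        omega
      · exact h5
  have hmeh : IsCoprime m (e * h) := by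
    refine hmi.coprime_iff_not_dvd.2 fun h3 => hmA (dvd_of_dvd_der hmi ?_)
    rw [← hs, hseh]
    exact (h3.mul_left _).trans (dvd_pow_self _ two_ne_zero)
  rw [← finsum_Dl]
  have e1 : (t : ℝ) ≤ 1 / 1000 * n := by
    have : (1000 : ℝ) * t ≤ n := by exact_mod_cast h1
    linarith
  have e2 : 1 / 1000 * (n : ℝ) < t + 1 := by
    have : (n : ℝ) < 1000 * (t + 1) := by exact_mod_cast h2
    linarith
  have e3 : (1 : ℝ) ≤ t := by exact_mod_cast ht
  have e4 : 1000 * (t : ℝ) ≤ n := by exact_mod_cast h1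
  set V := (n - 120 * t) / 2 with hV
  have v1 : 2 * V + 120 * t ≤ n := by omega
  have v2 : n ≤ 2 * V + 120 * t + 1 := by omega
  have v1' : 2 * (V : ℝ) + 120 * t ≤ n := by exact_mod_cast v1
  have v2' : (n : ℝ) ≤ 2 * V + 120 * t + 1 := by exact_mod_cast v2
  have d1 : n + 30 * t ≤ 2 * s.natDegree := by omega
  have d1' : (n : ℝ) + 30 * t ≤ 2 * s.natDegree := by exact_mod_cast d1
  have d2' : 2 * (s.natDegree : ℝ) ≤ n + 40 * t := by exact_mod_cast hsd.le
  refine hf c₁ m A e h P (40 * t) (200 * t) V hm hmi hmu hAm hAn hmA hc1 he hh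
    hcop hsq hmeh ?_ hPm hPi hPa hPh ?_ ?_ ?_ ?_ ?_ ?_
  · rw [← hseh]
    exact hs
  · have : (e.natDegree : ℝ) ≤ t := by exact_mod_cast het
    linarith
  · push_cast
    linarith
  · rw [hehd]
    omega
  · rw [hehd]
    push_cast
    linarith
  · push_cast
    linarith
  · rw [hehd]
    push_cast
    linarith

/-- the sum for one `m` -/
lemma per_mG {t n : ℕ} (ht : 1 ≤ t) (h1 : 1000 * t ≤ n) (h2 : n < 1000 * (t + 1)) {c : ℝ}
    (hc : 0 < c) {p : K[X] → ℝ} (hp : ∀ A, |p A| ≤ 1) (hf : FibG K (1 / 1000) c n p)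
    {m : K[X]} (hm : m ∈ Irr K (40 * t)) :
    |∑ A ∈ Mn K n, p A * cntP K (200 * t) m A| ≤
      (Fintype.card K : ℝ) ^ n * ((n : ℝ) ^ 2 * (Fintype.card K : ℝ) ^ 2 *
        (4 * (Fintype.card K : ℝ) ^ (-c * n) + 16 * (1 / 2) ^ (t / 3))) := by
  have hq := q_ge (k := K)
  set q := (Fintype.card K : ℝ) with hqdef
  have hm' := hm
  unfold Irr at hm'
  rw [Finset.mem_filter, mem_Mn] at hm'
  obtain ⟨⟨hmm, hmu⟩, hmi⟩ := hm'
  obtain ⟨S, hS, hSc⟩ := card_S3 (K := K) ((n + 40 * t) / 2) (t / 3)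
  rw [← hqdef] at hSc
  set V := (n - 120 * t) / 2 with hV
  have v1 : 2 * V + 120 * t ≤ n := by omega
  set δ := q ^ (-c * n : ℝ) with hδ
  have hδ0 : 0 < δ := by
    rw [hδ]
    positivity
  have hδ1 : δ ≤ 1 := by
    rw [hδ]
    apply Real.rpow_le_one_of_one_le_of_nonpos (by linarith)
    have : 0 ≤ c * n := by positivity
    linarith
  set cn := fun A => cntP K (200 * t) m A with hcn
  set G := fun A => p A * cntP K (200 * t) m A with hG
  set ib := fun A => if Bad t n S m A then (1 : ℝ) else 0 with hib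
  set iz := fun A => if derivative (m * A) = 0 then (1 : ℝ) else 0 with hiz
  have key : ∀ A ∈ Mn K n, |∑ v ∈ Dl K V, G (A + m * v ^ 2)| ≤ q ^ V * (cn A * (δ + ib A)) := by
    intro A hA
    have hA' := mem_Mn.1 hA
    have e1 : ∀ v ∈ Dl K V, G (A + m * v ^ 2) = cn A * p (A + m * v ^ 2) := by
      intro v hv
      have e4 : cntP K (200 * t) m (A + m * v ^ 2) = cntP K (200 * t) m A := by
        unfold cntP
        rw [der_shift]
      simp only [hG, hcn]
      rw [e4]
      ring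
    rw [Finset.sum_congr rfl e1, ← Finset.mul_sum, abs_mul]
    have hcn0 : 0 ≤ cn A := cnt_nonneg _ _ _
    rw [abs_of_nonneg hcn0]
    have hib0 : 0 ≤ ib A := by
      simp only [hib]
      split_ifs <;> norm_num
    have htriv : |∑ v ∈ Dl K V, p (A + m * v ^ 2)| ≤ q ^ V := by
      refine (Finset.abs_sum_le_sum_abs _ _).trans ?_
      refine (Finset.sum_le_sum fun v _ => hp (A + m * v ^ 2)).trans ?_
      rw [Finset.sum_const, card_Dl, nsmul_eq_mul]
      push_cast
      rw [mul_one]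
    by_cases hb : Bad t n S m A
    · have hib1 : ib A = 1 := by
        simp only [hib]
        rw [if_pos hb]
      rw [hib1]
      calc cn A * |∑ v ∈ Dl K V, p (A + m * v ^ 2)| ≤ 1 * cn A * q ^ V := by
            rw [one_mul]
            gcongr
        _ ≤ 1 * cn A * q ^ V * (δ + 1) := by
            have h3 : 0 ≤ 1 * cn A * q ^ V := by positivity
            exact le_mul_of_one_le_right h3 (by linarith)
        _ = _ := by ring
    · by_cases h0 : cn A = 0
      · rw [h0]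
        simp
      · have hcard : 0 < ((Irr K (200 * t)).filter (fun P => P ∣ derivative (m * A))).card := by
          rw [Nat.pos_iff_ne_zero]
          intro h3
          apply h0
          simp only [hcn]
          unfold cntP
          rw [h3, Nat.cast_zero]
        obtain ⟨P, hP⟩ := Finset.card_pos.1 hcard
        rw [Finset.mem_filter] at hP
        have hg := goodG ht h1 h2 hf hS hmm hmi hmu hA hb hP.1 hP.2
        have e5 : q ^ ((((n - 120 * t) / 2 : ℕ) : ℝ) - c * n) = q ^ V * δ := by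
          rw [hδ, ← Real.rpow_natCast q V, ← Real.rpow_add (by linarith)]
          congr 1
          ring
        rw [← hqdef, e5] at hg
        calc cn A * |∑ v ∈ Dl K V, p (A + m * v ^ 2)| ≤
              1 * cn A * (q ^ V * δ) := by
              rw [one_mul]
              gcongr
          _ = q ^ V * (cn A * (δ + 0)) := by ring
          _ ≤ _ := by gcongr
  have hqV : 0 < q ^ V := by positivity
  have step1 : |∑ A ∈ Mn K n, G A| ≤ ∑ A ∈ Mn K n, cn A * (δ + ib A) := by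
    have e1 := avg hmm hmu (n := n) (V := V) (by omega) G
    rw [← hqdef] at e1
    have e2 : q ^ V * |∑ A ∈ Mn K n, G A| ≤ q ^ V * ∑ A ∈ Mn K n, cn A * (δ + ib A) := by
      rw [← abs_of_pos hqV, ← abs_mul, abs_of_pos hqV, e1, Finset.mul_sum]
      exact (Finset.abs_sum_le_sum_abs _ _).trans (Finset.sum_le_sum key)
    exact le_of_mul_le_mul_left e2 hqV
  have hn0 : (0 : ℝ) ≤ n := Nat.cast_nonneg n
  have step2 : ∑ A ∈ Mn K n, cn A * (δ + ib A) ≤
      ∑ A ∈ Mn K n, (2 * n * δ + 2 * n * ib A + 2 * q ^ (200 * t) * iz A) := by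
    refine Finset.sum_le_sum fun A hA => ?_
    have hA' := mem_Mn.1 hA
    have hib0 : 0 ≤ ib A := by
      simp only [hib]
      split_ifs <;> norm_num
    have hib1 : ib A ≤ 1 := by
      simp only [hib]
      split_ifs <;> norm_num
    by_cases hz : derivative (m * A) = 0
    · have hiz1 : iz A = 1 := by
        simp only [hiz]
        rw [if_pos hz]
      have h3 : cn A ≤ q ^ (200 * t) := cnt_le' _ _ _
      rw [hiz1]
      have h4 : cn A * (δ + ib A) ≤ q ^ (200 * t) * 2 := by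
        have : δ + ib A ≤ 2 := by linarith
        have h5 : 0 ≤ cn A := cnt_nonneg _ _ _
        gcongr
      have h6 : 0 ≤ 2 * n * δ + 2 * n * ib A := by positivity
      linarith
    · have h3 : cn A ≤ 2 * n := by
        have h4 := cnt_le (K := K) (a := 200 * t) (by omega) (m := m) (A := A) hz
        have h5 : (derivative (m * A)).natDegree ≤ 2 * n := by
          have h6 : (m * A).natDegree = 40 * t + n := by
            rw [hmm.natDegree_mul hA'.1, hmu, hA'.2]
          have h7 := natDegree_derivative_le (m * A)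
          omega
        refine h4.trans ?_
        exact_mod_cast h5
      have hiz0 : 0 ≤ 2 * q ^ (200 * t) * iz A := by
        have : 0 ≤ iz A := by
          simp only [hiz]
          split_ifs <;> norm_num
        positivity
      have h4 : cn A * (δ + ib A) ≤ 2 * n * (δ + ib A) := by gcongr
      linarith
  have step3 : ∑ A ∈ Mn K n, (2 * n * δ + 2 * n * ib A + 2 * q ^ (200 * t) * iz A) =
      q ^ n * (2 * n * δ) + 2 * n * (((Mn K n).filter (fun A => Bad t n S m A)).card : ℝ) +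
        2 * q ^ (200 * t) * (((Mn K n).filter (fun A => derivative (m * A) = 0)).card : ℝ) := by
    rw [Finset.sum_add_distrib, Finset.sum_add_distrib, Finset.sum_const, card_Mn, nsmul_eq_mul,
      ← Finset.mul_sum, ← Finset.mul_sum]
    simp only [hib, hiz]
    rw [Finset.sum_boole, Finset.sum_boole]
    push_cast
    rfl
  have ex : (n - 40 * t) / 2 + 1 + 200 * t + t ≤ n := by omega
  have hq1 : (1 : ℝ) ≤ q := by linarith
  -- the case `(m A)' = 0`
  have cZ : q ^ (200 * t) * (((Mn K n).filter (fun A => derivative (m * A) = 0)).card : ℝ) ≤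
      q ^ (n - t) := by
    have h3 := card_fibre hmm hmi hmu (n := n) {0}
    have h4 : (Mn K n).filter (fun A => derivative (m * A) = 0) ⊆
        (Mn K n).filter (fun A => Rt {0} m A) := by
      intro A hA
      rw [Finset.mem_filter] at hA ⊢
      exact ⟨hA.1, 0, Finset.mem_singleton_self _, by rw [hA.2]; ring⟩
    have h5 : (((Mn K n).filter (fun A => derivative (m * A) = 0)).card : ℝ) ≤
        q ^ ((n - 40 * t) / 2 + 1) := by
      have := (Finset.card_le_card h4).trans h3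
      rw [Finset.card_singleton, mul_one] at this
      rw [hqdef]
      exact_mod_cast this
    calc q ^ (200 * t) * (((Mn K n).filter (fun A => derivative (m * A) = 0)).card : ℝ) ≤
          q ^ (200 * t) * q ^ ((n - 40 * t) / 2 + 1) := by gcongr
      _ = q ^ (200 * t + ((n - 40 * t) / 2 + 1)) := (pow_add _ _ _).symm
      _ ≤ q ^ (n - t) := pow_le_pow_right₀ hq1 (by omega)
  -- the bad ones
  have cB : (((Mn K n).filter (fun A => Bad t n S m A)).card : ℝ) ≤
      q ^ (n - t) + q ^ (n - t) + q ^ n * (n * q ^ 2 * (1 / 2) ^ (t / 3)) := by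
    have h3 : (Mn K n).filter (fun A => Bad t n S m A) ⊆ (Mn K n).filter (fun A => m ∣ A) ∪
        ((Mn K n).filter (fun A => Rt (Dl K ((n + 40 * t) / 2 - 5 * t + 1)) m A) ∪
        (Mn K n).filter (fun A => Rt S m A)) := by
      intro A hA
      rw [Finset.mem_filter] at hA
      rw [Finset.mem_union, Finset.mem_union, Finset.mem_filter, Finset.mem_filter,
        Finset.mem_filter]
      rcases hA.2 with h | h | h
      · exact Or.inl ⟨hA.1, h⟩
      · exact Or.inr (Or.inl ⟨hA.1, h⟩)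
      · exact Or.inr (Or.inr ⟨hA.1, h⟩)
    have h4 := (Finset.card_le_card h3).trans ((Finset.card_union_le _ _).trans
      (Nat.add_le_add_left (Finset.card_union_le _ _) _))
    have c1 : (((Mn K n).filter (fun A => m ∣ A)).card : ℝ) ≤ q ^ (n - t) := by
      rw [Pool.Agent.H694.Typ.card_dvd hmm (by omega), hmu, Nat.cast_pow]
      exact pow_le_pow_right₀ hq1 (by omega)
    have c2 : (((Mn K n).filter (fun A => Rt (Dl K ((n + 40 * t) / 2 - 5 * t + 1)) m A)).card : ℝ) ≤ q ^ (n - t) := by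
      have h5 := card_fibre hmm hmi hmu (n := n) (Dl K ((n + 40 * t) / 2 - 5 * t + 1))
      rw [card_Dl, ← pow_add] at h5
      have h6 : (((Mn K n).filter (fun A => Rt (Dl K ((n + 40 * t) / 2 - 5 * t + 1)) m A)).card : ℝ) ≤
          q ^ ((n - 40 * t) / 2 + 1 + ((n + 40 * t) / 2 - 5 * t + 1)) := by
        rw [hqdef]
        exact_mod_cast h5
      refine h6.trans (pow_le_pow_right₀ hq1 (by omega))
    have c3 : (((Mn K n).filter (fun A => Rt S m A)).card : ℝ) ≤
        q ^ n * (n * q ^ 2 * (1 / 2) ^ (t / 3)) := by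
      have h5 := card_fibre hmm hmi hmu (n := n) S
      have h6 : (((Mn K n).filter (fun A => Rt S m A)).card : ℝ) ≤
          q ^ ((n - 40 * t) / 2 + 1) * (S.card : ℝ) := by
        rw [hqdef]
        exact_mod_cast h5
      have h7 : (((n + 40 * t) / 2 : ℕ) : ℝ) + 1 ≤ n := by
        have : (n + 40 * t) / 2 + 1 ≤ n := by omega
        exact_mod_cast this
      calc (((Mn K n).filter (fun A => Rt S m A)).card : ℝ) ≤
          q ^ ((n - 40 * t) / 2 + 1) * (S.card : ℝ) := h6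
        _ ≤ q ^ ((n - 40 * t) / 2 + 1) * (q * (((((n + 40 * t) / 2 : ℕ) : ℝ) + 1) *
            (q ^ ((n + 40 * t) / 2) * (1 / 2) ^ (t / 3)))) := by gcongr
        _ ≤ q ^ ((n - 40 * t) / 2 + 1) * (q * (n *
            (q ^ ((n + 40 * t) / 2) * (1 / 2) ^ (t / 3)))) := by gcongr
        _ = q ^ ((n - 40 * t) / 2 + 1 + (n + 40 * t) / 2 + 1) * (n * (1 / 2) ^ (t / 3)) := by
            ring
        _ ≤ q ^ (n + 2) * (n * (1 / 2) ^ (t / 3)) := by
            refine mul_le_mul_of_nonneg_right (pow_le_pow_right₀ hq1 (by omega)) (by positivity)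
        _ = _ := by rw [pow_add]; ring
    have h5 : (((Mn K n).filter (fun A => Bad t n S m A)).card : ℝ) ≤
        (((Mn K n).filter (fun A => m ∣ A)).card : ℝ) +
        ((((Mn K n).filter (fun A => Rt (Dl K ((n + 40 * t) / 2 - 5 * t + 1)) m A)).card : ℝ) +
        (((Mn K n).filter (fun A => Rt S m A)).card : ℝ)) := by
      exact_mod_cast h4
    linarith
  have hε : q ^ (n - t) ≤ q ^ n * (1 / 2) ^ (t / 3) := by
    have h3 : q ^ n = q ^ (n - t) * q ^ t := by
      rw [← pow_add]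
      congr 1
      omega
    rw [h3, mul_assoc]
    have h4 : 1 ≤ q ^ t * (1 / 2) ^ (t / 3) := by
      calc (1 : ℝ) = 2 ^ t * (1 / 2) ^ t := by
            rw [← mul_pow]
            norm_num
        _ ≤ q ^ t * (1 / 2) ^ (t / 3) := by
            have h5 : (1 / 2 : ℝ) ^ t ≤ (1 / 2) ^ (t / 3) :=
              pow_le_pow_of_le_one (by norm_num) (by norm_num) (by omega)
            gcongr
    exact le_mul_of_one_le_right (by positivity) h4
  rw [step3] at step2
  refine (step1.trans step2).trans ?_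
  set ε : ℝ := (1 / 2) ^ (t / 3) with hεd
  have hε0 : 0 < ε := by rw [hεd]; positivity
  have hn1 : (1 : ℝ) ≤ n := by exact_mod_cast (show 1 ≤ n by omega)
  have hqn : 0 < q ^ n := by positivity
  have hq2 : 1 ≤ q ^ 2 := one_le_pow₀ hq1
  have hn2 : (n : ℝ) ≤ n ^ 2 := le_self_pow₀ hn1 two_ne_zero
  have hnq : (n : ℝ) ≤ n ^ 2 * q ^ 2 := by
    calc (n : ℝ) ≤ n ^ 2 := hn2
      _ = n ^ 2 * 1 := (mul_one _).symm
      _ ≤ n ^ 2 * q ^ 2 := by gcongr
  have h1q : (1 : ℝ) ≤ n ^ 2 * q ^ 2 := hn1.trans hnq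
  have f1 : q ^ n * (2 * n * δ) ≤ q ^ n * (n ^ 2 * q ^ 2 * (4 * δ)) := by
    have h3 : 2 * n * δ ≤ 2 * (n ^ 2 * q ^ 2) * δ := by gcongr
    have h4 : 0 ≤ (n : ℝ) ^ 2 * q ^ 2 * δ := by positivity
    have : 2 * n * δ ≤ n ^ 2 * q ^ 2 * (4 * δ) := by linarith
    gcongr
  have f2 : 2 * n * (((Mn K n).filter (fun A => Bad t n S m A)).card : ℝ) ≤
      q ^ n * (n ^ 2 * q ^ 2 * (6 * ε)) := by
    calc 2 * n * (((Mn K n).filter (fun A => Bad t n S m A)).card : ℝ) ≤
          2 * n * (q ^ n * ε + q ^ n * ε + q ^ n * (n * q ^ 2 * ε)) := by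
          have := cB.trans (by linarith : q ^ (n - t) + q ^ (n - t) + q ^ n * (n * q ^ 2 * ε) ≤
            q ^ n * ε + q ^ n * ε + q ^ n * (n * q ^ 2 * ε))
          gcongr
      _ = q ^ n * ε * (4 * n + 2 * (n ^ 2 * q ^ 2)) := by ring
      _ ≤ q ^ n * ε * (4 * (n ^ 2 * q ^ 2) + 2 * (n ^ 2 * q ^ 2)) := by gcongr
      _ = _ := by ring
  have f3 : 2 * q ^ (200 * t) * (((Mn K n).filter (fun A => derivative (m * A) = 0)).card : ℝ) ≤
      q ^ n * (n ^ 2 * q ^ 2 * (2 * ε)) := by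
    calc 2 * q ^ (200 * t) * (((Mn K n).filter (fun A => derivative (m * A) = 0)).card : ℝ) =
          2 * (q ^ (200 * t) *
            (((Mn K n).filter (fun A => derivative (m * A) = 0)).card : ℝ)) := by ring
      _ ≤ 2 * (q ^ n * ε) := by
          have := cZ.trans hε
          gcongr
      _ = q ^ n * (1 * (2 * ε)) := by ring
      _ ≤ _ := by gcongr
  have f4 : 0 ≤ q ^ n * (n ^ 2 * q ^ 2 * (8 * ε)) := by positivity
  calc _ ≤ q ^ n * (n ^ 2 * q ^ 2 * (4 * δ)) + q ^ n * (n ^ 2 * q ^ 2 * (6 * ε)) +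
        q ^ n * (n ^ 2 * q ^ 2 * (2 * ε)) := by linarith
    _ ≤ q ^ n * (n ^ 2 * q ^ 2 * (4 * δ)) + q ^ n * (n ^ 2 * q ^ 2 * (6 * ε)) +
        q ^ n * (n ^ 2 * q ^ 2 * (2 * ε)) + q ^ n * (n ^ 2 * q ^ 2 * (8 * ε)) := by linarith
    _ = _ := by ring

end per

end WsumL

open WsumL in
/-- **The sum over all fibres**, for a bounded function with the fibre bound. -/
theorem wsumG (hc : S_cov) (K : Type) [Field K] [Fintype K] [CharP K 2] (c : ℝ) (hc0 : 0 < c) :
    ∃ c' : ℝ, 0 < c' ∧ ∃ n₁ : ℕ, ∀ (n : ℕ) (p : K[X] → ℝ), n₁ ≤ n → (∀ A, |p A| ≤ 1) →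
      FibG K (1 / 1000) c n p →
      |∑ A ∈ Mn K n, p A| ≤ (Fintype.card K : ℝ) ^ ((1 - c') * n) := by
  have hq := q_ge (k := K)
  obtain ⟨c', hc', n₁, hfin⟩ := fin_asym (Fintype.card K : ℝ) c hq hc0
  refine ⟨c', hc', max n₁ 1000, ?_⟩
  intro n p hn hp1 hF
  have hn1 : n₁ ≤ n := (le_max_left _ _).trans hn
  have hn2 : 1000 ≤ n := (le_max_right _ _).trans hn
  have hfin' := hfin n hn1
  set t := n / 1000 with ht
  have ht1 : 1 ≤ t := by omega
  have htn : 1000 * t ≤ n := by omega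
  have htn' : n < 1000 * (t + 1) := by omega
  have hcov := hc K n (200 * t) (40 * t) (by omega) (by omega) (by omega)
  have hm : ∀ m ∈ Irr K (40 * t), _ := fun m hm =>
    per_mG ht1 htn htn' hc0 hp1 hF hm
  set q := (Fintype.card K : ℝ) with hqdef
  set R := q ^ n * ((n : ℝ) ^ 2 * q ^ 2 * (4 * q ^ (-c * n) + 16 * (1 / 2) ^ (t / 3))) with hR
  set I : ℝ := ((Irr K (40 * t)).card : ℝ) with hI
  set lam := lamP K (200 * t) with hlam
  set x := fun A => ∑ m ∈ Irr K (40 * t), (cntP K (200 * t) m A - lam) with hx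
  set S := ∑ A ∈ Mn K n, p A with hS
  have hq1 : (1 : ℝ) ≤ q := by linarith
  have hqn : 0 < q ^ n := by positivity
  -- the identity
  have hid : I * lam * S = ∑ m ∈ Irr K (40 * t), ∑ A ∈ Mn K n, p A * cntP K (200 * t) m A -
      ∑ A ∈ Mn K n, p A * x A := by
    rw [Finset.sum_comm, ← Finset.sum_sub_distrib, hS, Finset.mul_sum]
    refine Finset.sum_congr rfl fun A _ => ?_
    simp only [hx]
    rw [← Finset.mul_sum, Finset.sum_sub_distrib, Finset.sum_const, nsmul_eq_mul]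
    ring
  have hI1 : (4 : ℝ) ^ t ≤ I := by
    have h1 := Irr_ge (K := K) (a := 40 * t) (by omega)
    rw [← hqdef, ← hI] at h1
    have h2 : (2 : ℝ) ^ (40 * t) ≤ q ^ (40 * t) := by gcongr
    have h3 : (80 * t : ℕ) ≤ 2 ^ (38 * t) := by
      calc 80 * t ≤ 2 ^ 7 * 2 ^ t := Nat.mul_le_mul (by norm_num) Nat.lt_two_pow_self.le
        _ = 2 ^ (7 + t) := by rw [pow_add]
        _ ≤ 2 ^ (38 * t) := Nat.pow_le_pow_right (by norm_num) (by omega)
    have h4 : (80 * t : ℝ) ≤ 2 ^ (38 * t) := by exact_mod_cast h3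
    have h5 : (4 : ℝ) ^ t * 2 ^ (38 * t) = 2 ^ (40 * t) := by
      have : (4 : ℝ) ^ t = 2 ^ (2 * t) := by rw [pow_mul]; norm_num
      rw [this, ← pow_add]
      congr 1
      ring
    have h6 : (0 : ℝ) < 2 ^ (38 * t) := by positivity
    have h7 : (4 : ℝ) ^ t * 2 ^ (38 * t) ≤ I * 2 ^ (38 * t) := by
      calc (4 : ℝ) ^ t * 2 ^ (38 * t) = 2 ^ (40 * t) := h5
        _ ≤ q ^ (40 * t) := h2
        _ ≤ 2 * ((40 * t : ℕ) : ℝ) * I := h1
        _ = I * (80 * t) := by push_cast; ring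
        _ ≤ _ := by gcongr
    exact le_of_mul_le_mul_right h7 h6
  have hI0 : 0 < I := lt_of_lt_of_le (by positivity) hI1
  set J := Real.sqrt I with hJ
  have hJ0 : 0 < J := Real.sqrt_pos.2 hI0
  have hJ2 : J ^ 2 = I := Real.sq_sqrt hI0.le
  have hJ1 : (2 : ℝ) ^ t ≤ J := by
    rw [hJ]
    apply Real.le_sqrt_of_sq_le
    rw [← pow_mul, mul_comm t 2, pow_mul]
    norm_num
    exact hI1
  have hlam1 : 1 ≤ n * lam := by
    have h1 := Irr_ge (K := K) (a := 200 * t) (by omega)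
    rw [← hqdef] at h1
    have h2 : lam = ((Irr K (200 * t)).card : ℝ) / q ^ (200 * t) := rfl
    have h3 : 0 < q ^ (200 * t) := by positivity
    rw [h2, ← mul_div_assoc, le_div_iff₀ h3, one_mul]
    refine h1.trans ?_
    have h4 : 2 * ((200 * t : ℕ) : ℝ) ≤ n := by
      have : 2 * (200 * t) ≤ n := by omega
      exact_mod_cast this
    gcongr
  have hR0 : 0 ≤ R := by
    rw [hR]
    positivity
  -- the first part
  have p1 : |∑ A ∈ Mn K n, p A * x A| ≤ J * q ^ n := by
    have h1 : |∑ A ∈ Mn K n, p A * x A| ≤ ∑ A ∈ Mn K n, |x A| := by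
      refine (Finset.abs_sum_le_sum_abs _ _).trans (Finset.sum_le_sum fun A _ => ?_)
      rw [abs_mul]
      have h3 := hp1 A
      calc |p A| * |x A| ≤ 1 * |x A| := by gcongr
        _ = _ := by ring
    refine h1.trans ?_
    have h2 := sq_sum_le_card_mul_sum_sq (s := Mn K n) (f := fun A => |x A|)
    rw [card_Mn] at h2
    have h3 : ∑ A ∈ Mn K n, |x A| ^ 2 = ∑ A ∈ Mn K n, x A ^ 2 :=
      Finset.sum_congr rfl fun A _ => sq_abs _
    rw [h3] at h2
    have h4 : (∑ A ∈ Mn K n, |x A|) ^ 2 ≤ (J * q ^ n) ^ 2 := by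
      refine h2.trans ?_
      push_cast
      rw [← hqdef]
      calc q ^ n * ∑ A ∈ Mn K n, x A ^ 2 ≤ q ^ n * (I * q ^ n) := by
            gcongr
        _ = _ := by rw [← hJ2]; ring
    have h5 : 0 ≤ ∑ A ∈ Mn K n, |x A| := Finset.sum_nonneg fun A _ => abs_nonneg _
    exact (sq_le_sq₀ h5 (by positivity)).1 h4
  -- the second part
  have p2 : |∑ m ∈ Irr K (40 * t), ∑ A ∈ Mn K n, p A * cntP K (200 * t) m A| ≤ I * R := by
    refine (Finset.abs_sum_le_sum_abs _ _).trans ((Finset.sum_le_sum hm).trans ?_)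
    rw [Finset.sum_const, nsmul_eq_mul]
  have p3 : I * lam * |S| ≤ I * R + J * q ^ n := by
    have hlam0 : 0 ≤ lam := by
      by_contra hcon
      have : (n : ℝ) * lam ≤ 0 := mul_nonpos_of_nonneg_of_nonpos (Nat.cast_nonneg n) (by linarith)
      linarith
    have h1 : I * lam * |S| = |I * lam * S| := by
      rw [abs_mul, abs_of_nonneg (mul_nonneg hI0.le hlam0)]
    rw [h1, hid]
    refine (abs_sub _ _).trans ?_
    linarith
  have p4 : J * (lam * |S|) ≤ J * R + q ^ n := by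
    have h1 : J * (J * (lam * |S|)) ≤ J * (J * R + q ^ n) := by
      calc J * (J * (lam * |S|)) = I * lam * |S| := by rw [← hJ2]; ring
        _ ≤ _ := p3
        _ = _ := by rw [← hJ2]; ring
    exact le_of_mul_le_mul_left h1 hJ0
  have p5 : q ^ n ≤ J * (q ^ n * (1 / 2) ^ (t / 3)) := by
    have h1 : (1 : ℝ) ≤ J * (1 / 2) ^ (t / 3) := by
      calc (1 : ℝ) = 2 ^ t * (1 / 2) ^ t := by
            rw [← mul_pow]
            norm_num
        _ ≤ J * (1 / 2) ^ (t / 3) := by
            have h5 : (1 / 2 : ℝ) ^ t ≤ (1 / 2) ^ (t / 3) :=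
              pow_le_pow_of_le_one (by norm_num) (by norm_num) (by omega)
            gcongr
    calc q ^ n = q ^ n * 1 := (mul_one _).symm
      _ ≤ q ^ n * (J * (1 / 2) ^ (t / 3)) := by gcongr
      _ = _ := by ring
  have p6 : lam * |S| ≤ R + q ^ n * (1 / 2) ^ (t / 3) := by
    have h1 : J * (lam * |S|) ≤ J * (R + q ^ n * (1 / 2) ^ (t / 3)) := by
      rw [mul_add]
      linarith
    exact le_of_mul_le_mul_left h1 hJ0
  have hn' : (1 : ℝ) ≤ n := by exact_mod_cast (show 1 ≤ n by omega)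
  have p7 : |S| ≤ n * (R + q ^ n * (1 / 2) ^ (t / 3)) := by
    calc |S| = 1 * |S| := (one_mul _).symm
      _ ≤ n * lam * |S| := by gcongr
      _ = n * (lam * |S|) := by ring
      _ ≤ _ := by gcongr
  refine p7.trans (le_trans ?_ hfin')
  have h8 : R + q ^ n * (1 / 2) ^ (t / 3) ≤ q ^ n * ((n : ℝ) ^ 2 * q ^ 2 *
      (4 * q ^ (-c * n : ℝ) + 17 * (1 / 2) ^ (t / 3))) := by
    have h9 : (1 : ℝ) ≤ (n : ℝ) ^ 2 * q ^ 2 := by
      have h10 : 1 ≤ (n : ℝ) ^ 2 := one_le_pow₀ hn'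
      have h11 : 1 ≤ q ^ 2 := one_le_pow₀ hq1
      nlinarith
    have h12 : q ^ n * (1 / 2) ^ (t / 3) ≤ (n : ℝ) ^ 2 * q ^ 2 * (q ^ n * (1 / 2) ^ (t / 3)) :=
      le_mul_of_one_le_left (by positivity) h9
    rw [hR]
    calc _ ≤ q ^ n * ((n : ℝ) ^ 2 * q ^ 2 * (4 * q ^ (-c * n) + 16 * (1 / 2) ^ (t / 3))) +
          (n : ℝ) ^ 2 * q ^ 2 * (q ^ n * (1 / 2) ^ (t / 3)) := by linarith
      _ = _ := by ring
  gcongr

end Pool.Agent.H604.LD
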